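import Pool.Agent.Lib.H70N.N
import Pool.Agent.Lib.H70L.Def

/-!
# H24L, file Hyp: Lemma D for unions of cliques

Cycles (mod 2) on sets with at most `k` elements bound in the complex `{M : M lies in a disconnected set}` of the graph
of a family `F` of vertex sets (two vertices are adjacent if they lie in a common member) if `k + cost F + 4 ≤ 2 n`,
where the cost of a member with `a` vertices is `2 a - 3`. The proof is the one of `Pool/Agent/Lib/H70N/N.lean` with an
arbitrary measure in place of the number of edges.
-/

set_option autoImplicit false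
set_option linter.unusedSectionVars false

namespace H24L

open Finset H98P H98Z H98M H63F H30F H30D H70H H70N H70L

variable {V : Type*} [Fintype V] [DecidableEq V]

/-- The measure `μ` drops by two when a neighbour of `Z` is deleted. -/
def P1 (G : Finset (Sym2 V)) (μ : Finset V → Finset V → Finset V → ℕ) : Prop :=
  ∀ (X Y Z : Finset V) (x : V), Disjoint X Y → Disjoint X Z → Disjoint Y Z →
    (∀ y ∈ Y, ∀ z ∈ Z, s(z, y) ∉ G) → x ∈ X → (∃ z ∈ Z, s(z, x) ∈ G) →
    ¬ nb G x (X.erase x) + nb G x Y = 0 → μ (X.erase x) Y Z + 2 ≤ μ X Y Z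

/-- The measure `μ` drops when a neighbour of `Z` moves to `Z`. -/
def P2 (G : Finset (Sym2 V)) (μ : Finset V → Finset V → Finset V → ℕ) : Prop :=
  ∀ (X Y Z : Finset V) (x : V), Disjoint X Y → Disjoint X Z → Disjoint Y Z →
    (∀ y ∈ Y, ∀ z ∈ Z, s(z, y) ∉ G) → x ∈ X → (∃ z ∈ Z, s(z, x) ∈ G) →
    μ (X.erase x) (Y \ Y.filter fun a => s(x, a) ∈ G) (insert x Z) + nb G x Y + 1 ≤ μ X Y Z

/-- The measure `ν` drops when a neighbour of `Y` moves to `Y`. -/
def Q1 (G : Finset (Sym2 V)) (ν : Finset V → Finset V → ℕ) : Prop :=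
  ∀ (X Y : Finset V) (x : V), Disjoint X Y → x ∈ X → (∃ y ∈ Y, s(x, y) ∈ G) →
    ν (X.erase x) (insert x Y) + 1 ≤ ν X Y

/-- Comparison of the two measures. -/
def Q2 (G : Finset (Sym2 V)) (μ : Finset V → Finset V → Finset V → ℕ)
    (ν : Finset V → Finset V → ℕ) : Prop :=
  ∀ (X Y : Finset V) (x : V), Disjoint X Y → x ∈ X →
    μ (X.erase x) (Y \ Y.filter fun a => s(x, a) ∈ G) {x} + nb G x Y ≤ ν X Y

/-- Claim R: `Z` connected, no edges between `Y` and `Z`. -/
theorem ack_Rg {G : Finset (Sym2 V)} (μ : Finset V → Finset V → Finset V → ℕ)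
    (p1 : P1 G μ) (p2 : P2 G μ) (n : ℕ) : ∀ (X Y Z : Finset V) (k : ℕ), X.card ≤ n →
    Disjoint X Y → Disjoint X Z → Disjoint Y Z → Z.Nonempty → ¬ Disc Z G → Y.Nonempty →
    X.Nonempty → (∀ y ∈ Y, ∀ z ∈ Z, s(z, y) ∉ G) → k + 2 + μ X Y Z ≤ 2 * X.card + Y.card →
    ACk k (Rx G (X ∪ Y ∪ Z) X Z) := by
  induction n with
  | zero =>
    intro X Y Z k hc _ _ _ _ _ _ hX _ _
    exact absurd (card_pos.2 hX) (by omega)
  | succ n ih =>
    intro X Y Z k hc hXY hXZ hYZ hZ hn hY hX hyz hk
    by_cases hx : ∃ x ∈ X, ∃ z ∈ Z, s(z, x) ∈ G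
    · obtain ⟨x, hxX, z, hz, hzx⟩ := hx
      have hxY : x ∉ Y := fun h => disjoint_left.1 hXY hxX h
      have hxZ : x ∉ Z := fun h => disjoint_left.1 hXZ hxX h
      have a2 := p2 X Y Z x hXY hXZ hYZ hyz hxX ⟨z, hz, hzx⟩
      have a4 : (X.erase x).card + 1 = X.card := card_erase_add_one hxX
      by_cases h0 : nb G x (X.erase x) + nb G x Y = 0
      · refine ack_of_ac k (H63H.ac_cone (a := x) ?_)
        rintro s ⟨h1, W, h2, h3, h4⟩
        obtain ⟨C, D, hD, hCD, hW, hZC, h⟩ := disc_part hZ hn (subset_union_right.trans h2) h4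
        have hxD : x ∉ D := fun hd => h z (hZC hz) x hd hzx
        refine ⟨insert_subset hxX h1, insert x W, ?_, insert_subset ?_ h3, insert x C, D,
          insert_nonempty x C, hD, disjoint_insert_left.2 ⟨hxD, hCD⟩, ?_, ?_⟩
        · rw [insert_union]
          exact insert_subset_insert x h2
        · exact mem_union_left _ (mem_union_left _ hxX)
        · rw [insert_union, hW]
        · intro u hu d hd
          rcases mem_insert.1 hu with hu | hu
          · subst hu
            have h5 : d ∈ X ∪ Y ∪ Z := h3 (hW ▸ mem_union_right _ hd)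
            have h6 : d ∉ Z := fun h7 => disjoint_left.1 hCD (hZC h7) hd
            have h7 : d ≠ u := fun h8 => hxD (h8 ▸ hd)
            rcases mem_union.1 h5 with h5 | h5
            · rcases mem_union.1 h5 with h5 | h5
              · exact nb_zero (A := X.erase u) (by omega) d (mem_erase.2 ⟨h7, h5⟩)
              · exact nb_zero (A := Y) (by omega) d h5
            · exact absurd h5 h6
          · exact h u hu d hd
      · by_cases h2 : (X.erase x).Nonempty
        · refine ack_vertex rx_dn x ?_ ?_
          · -- deletion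
            refine ack_congr (K := Rx G (X.erase x ∪ Y ∪ Z) (X.erase x) Z) (fun s => ?_)
              (ih (X.erase x) Y Z k (by omega) (disjoint_of_subset_left (erase_subset x X) hXY)
                (disjoint_of_subset_left (erase_subset x X) hXZ) hYZ hZ hn hY h2 hyz
                (by
                  have a1 := p1 X Y Z x hXY hXZ hYZ hyz hxX ⟨z, hz, hzx⟩ h0
                  omega))
            rw [rx_del, rx_drop (U := X ∪ Y ∪ Z) (T := {x}) hZ hn (by
              intro t ht
              rw [mem_singleton] at ht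
              subst ht
              exact ⟨hxZ, z, hz, hzx⟩) (by
              intro t ht
              rw [mem_singleton] at ht
              subst ht
              exact notMem_erase t X)]
            have e : (X ∪ Y ∪ Z) \ {x} = X.erase x ∪ Y ∪ Z := by
              ext v
              simp only [mem_sdiff, mem_union, mem_singleton, mem_erase]
              constructor
              · tauto
              · rintro ((h5 | h5) | h5)
                · tauto
                · exact ⟨Or.inl (Or.inr h5), fun h6 => hxY (h6 ▸ h5)⟩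
                · exact ⟨Or.inr h5, fun h6 => hxZ (h6 ▸ h5)⟩
            rw [e]
          · -- link
            intro l hl
            have hn' : ¬ Disc (insert x Z) G := by
              intro hdz
              obtain ⟨C, D, hD, hCD, hW, hZC, h⟩ := disc_part hZ hn (subset_insert x Z) hdz
              obtain ⟨d, hdd⟩ := hD
              have h1 : d ∈ insert x Z := by
                rw [← hW]
                exact mem_union_right _ hdd
              rcases mem_insert.1 h1 with h2 | h2
              · exact h z (hZC hz) d hdd (h2 ▸ hzx)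
              · exact disjoint_left.1 hCD (hZC h2) hdd
            obtain ⟨T, hT⟩ : ∃ T, T = Y.filter fun a => s(x, a) ∈ G := ⟨_, rfl⟩
            have hTY : T ⊆ Y := hT ▸ filter_subset _ _
            have hTc : T.card = nb G x Y := by rw [hT]; rfl
            have e : (X ∪ Y ∪ Z) \ T = X.erase x ∪ (Y \ T) ∪ insert x Z := by
              ext v
              simp only [mem_sdiff, mem_union, mem_insert, mem_erase]
              constructor
              · rintro ⟨(h5 | h5) | h5, h6⟩
                · by_cases h7 : v = x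
                  · exact Or.inr (Or.inl h7)
                  · exact Or.inl (Or.inl ⟨h7, h5⟩)
                · exact Or.inl (Or.inr ⟨h5, h6⟩)
                · exact Or.inr (Or.inr h5)
              · rintro ((h5 | h5) | (h5 | h5))
                · exact ⟨Or.inl (Or.inl h5.2), fun h6 => disjoint_left.1 hXY h5.2 (hTY h6)⟩
                · exact ⟨Or.inl (Or.inr h5.1), h5.2⟩
                · subst h5
                  exact ⟨Or.inl (Or.inl hxX), fun h6 => hxY (hTY h6)⟩
                · exact ⟨Or.inr h5, fun h6 => disjoint_left.1 hYZ (hTY h6) h5⟩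
            have key : ∀ s, (Rx G (X ∪ Y ∪ Z) X Z (insert x s) ∧ x ∉ s) ↔
                Rx G (X.erase x ∪ (Y \ T) ∪ insert x Z) (X.erase x) (insert x Z) s := by
              intro s
              rw [rx_link hxX, rx_drop (U := X ∪ Y ∪ Z) (T := T) (insert_nonempty x Z) hn' (by
                intro t ht
                refine ⟨fun h5 => ?_, x, mem_insert_self x Z, ?_⟩
                · rcases mem_insert.1 h5 with h6 | h6
                  · exact hxY (h6 ▸ hTY ht)
                  · exact disjoint_left.1 hYZ (hTY ht) h6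
                · rw [hT] at ht
                  exact (mem_filter.1 ht).2) (by
                intro t ht h5
                exact disjoint_left.1 hXY (mem_of_mem_erase h5) (hTY ht)), e]
            have d1 : Disjoint (X.erase x) (insert x Z) :=
              disjoint_insert_right.2 ⟨notMem_erase x X,
                disjoint_of_subset_left (erase_subset x X) hXZ⟩
            by_cases hYT : (Y \ T).Nonempty
            · refine ack_congr (fun s => (key s).symm)
                (ih (X.erase x) (Y \ T) (insert x Z) l (by omega)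
                  (disjoint_of_subset_left (erase_subset x X)
                    (disjoint_of_subset_right sdiff_subset hXY)) d1 ?_ (insert_nonempty x Z) hn'
                  hYT h2 ?_ ?_)
              · exact disjoint_insert_right.2 ⟨fun h5 => hxY (mem_sdiff.1 h5).1,
                  disjoint_of_subset_left sdiff_subset hYZ⟩
              · intro y hy v hv
                rcases mem_insert.1 hv with h5 | h5
                · subst h5
                  intro h6
                  exact (mem_sdiff.1 hy).2 (hT ▸ mem_filter.2 ⟨(mem_sdiff.1 hy).1, h6⟩)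
                · exact hyz y (mem_sdiff.1 hy).1 v h5
              · have b3 : (Y \ T).card + T.card = Y.card := card_sdiff_add_card_eq_card hTY
                rw [← hT] at a2
                omega
            · have h5 : Y \ T = ∅ := not_nonempty_iff_eq_empty.1 hYT
              refine ack_of_ac l (ac_congr (fun s => (key s).symm) ?_)
              refine ac_congr (K := Rr G (X.erase x ∪ insert x Z) (insert x Z)) (fun s => ?_)
                (ac_R _ _ _ le_rfl subset_union_right (insert_nonempty x Z) hn')
              have h6 : (X.erase x ∪ insert x Z) \ insert x Z = X.erase x := by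
                rw [union_sdiff_right]
                exact sdiff_eq_self_of_disjoint d1
              unfold Rr Rx
              rw [h6, h5, union_empty]
        · -- `X = {x}`
          have h3 : X.erase x = ∅ := not_nonempty_iff_eq_empty.1 h2
          have h4 : nb G x Y < Y.card := by
            rw [h3] at a4
            simp only [card_empty] at a4
            omega
          obtain ⟨y, hy, hxy⟩ := nb_lt h4
          have h5 : X = {x} := by
            rw [← insert_erase hxX, h3]
            rfl
          refine ack_of_ac k (ac_congr (K := fun s => s ⊆ X) (fun s => ?_) (ac_simplex hX))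
          refine ⟨fun h6 => ⟨h6, insert y (insert x Z), ?_, ?_, {y}, insert x Z,
            singleton_nonempty y, insert_nonempty x Z, ?_, rfl, ?_⟩, fun h6 => h6.1⟩
          · intro v hv
            rcases mem_union.1 hv with h7 | h7
            · have h8 := h6 h7
              rw [h5, mem_singleton] at h8
              subst h8
              exact mem_insert_of_mem (mem_insert_self v Z)
            · exact mem_insert_of_mem (mem_insert_of_mem h7)
          · intro v hv
            rcases mem_insert.1 hv with h7 | h7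
            · subst h7
              exact mem_union_left _ (mem_union_right _ hy)
            · rcases mem_insert.1 h7 with h8 | h8
              · subst h8
                exact mem_union_left _ (mem_union_left _ hxX)
              · exact mem_union_right _ h8
          · refine disjoint_singleton_left.2 fun h7 => ?_
            rcases mem_insert.1 h7 with h8 | h8
            · exact hxY (h8 ▸ hy)
            · exact disjoint_left.1 hYZ hy h8
          · intro u hu v hv
            rw [mem_singleton] at hu
            subst hu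
            rw [Sym2.eq_swap]
            rcases mem_insert.1 hv with h8 | h8
            · subst h8
              exact hxy
            · exact hyz u hy v h8
    · push Not at hx
      refine ack_of_ac k (ac_congr (K := fun s => s ⊆ X) (fun s => ?_) (ac_simplex hX))
      refine ⟨fun h6 => ⟨h6, X ∪ Y ∪ Z, ?_, Subset.rfl, X ∪ Y, Z,
        hX.mono subset_union_left, hZ, disjoint_union_left.2 ⟨hXZ, hYZ⟩, rfl, ?_⟩, fun h6 => h6.1⟩
      · exact union_subset_union (h6.trans subset_union_left) Subset.rfl
      · intro u hu v hv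
        rw [Sym2.eq_swap]
        rcases mem_union.1 hu with h7 | h7
        · exact hx u h7 v hv
        · exact hyz u h7 v hv

/-- Claim N. -/
theorem ack_Ng {G : Finset (Sym2 V)} (μ : Finset V → Finset V → Finset V → ℕ)
    (ν : Finset V → Finset V → ℕ) (p1 : P1 G μ) (p2 : P2 G μ) (q1 : Q1 G ν) (q2 : Q2 G μ ν) (n : ℕ) : ∀ (X Y : Finset V) (k : ℕ), X.card ≤ n →
    Disjoint X Y → Y.Nonempty → X.Nonempty →
    k + 3 + ν X Y ≤ 2 * X.card + Y.card →
    ACk k (Rx G (X ∪ Y) X ∅) := by
  induction n with
  | zero =>
    intro X Y k hc _ _ hX _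
    exact absurd (card_pos.2 hX) (by omega)
  | succ n ih =>
    intro X Y k hc hXY hY hX hk
    by_cases hx : ∃ x ∈ X, ∃ y ∈ Y, s(x, y) ∈ G
    · obtain ⟨x, hxX, y, hy, hxy⟩ := hx
      have hxY : x ∉ Y := fun h => disjoint_left.1 hXY hxX h
      have a1 := q1 X Y x hXY hxX ⟨y, hy, hxy⟩
      have a2 := q2 X Y x hXY hxX
      have a4 : (X.erase x).card + 1 = X.card := card_erase_add_one hxX
      have a5 : 1 ≤ nb G x Y := card_pos.2 ⟨y, mem_filter.2 ⟨hy, hxy⟩⟩
      by_cases h2 : (X.erase x).Nonempty
      · refine ack_vertex rx_dn x ?_ ?_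
        · -- deletion
          have e : X ∪ Y = X.erase x ∪ insert x Y := by
            ext v
            simp only [mem_union, mem_insert, mem_erase]
            constructor
            · rintro (h5 | h5)
              · by_cases h7 : v = x
                · exact Or.inr (Or.inl h7)
                · exact Or.inl ⟨h7, h5⟩
              · exact Or.inr (Or.inr h5)
            · rintro (h5 | h5 | h5)
              · exact Or.inl h5.2
              · subst h5
                exact Or.inl hxX
              · exact Or.inr h5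
          have c3 : (insert x Y).card = Y.card + 1 := card_insert_of_notMem hxY
          refine ack_congr (K := Rx G (X.erase x ∪ insert x Y) (X.erase x) ∅) (fun s => ?_)
            (ih (X.erase x) (insert x Y) k (by omega) ?_ (insert_nonempty x Y) h2 (by omega))
          · rw [rx_del, e]
          · exact disjoint_insert_right.2 ⟨notMem_erase x X,
              disjoint_of_subset_left (erase_subset x X) hXY⟩
        · -- link
          intro l hl
          have hn' : ¬ Disc ({x} : Finset V) G := not_disc_singleton x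
          obtain ⟨T, hT⟩ : ∃ T, T = Y.filter fun a => s(x, a) ∈ G := ⟨_, rfl⟩
          have hTY : T ⊆ Y := hT ▸ filter_subset _ _
          have hTc : T.card = nb G x Y := by rw [hT]; rfl
          have e : (X ∪ Y) \ T = X.erase x ∪ (Y \ T) ∪ {x} := by
            ext v
            simp only [mem_sdiff, mem_union, mem_singleton, mem_erase]
            constructor
            · rintro ⟨h5 | h5, h6⟩
              · by_cases h7 : v = x
                · exact Or.inr h7
                · exact Or.inl (Or.inl ⟨h7, h5⟩)
              · exact Or.inl (Or.inr ⟨h5, h6⟩)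
            · rintro ((h5 | h5) | h5)
              · exact ⟨Or.inl h5.2, fun h6 => disjoint_left.1 hXY h5.2 (hTY h6)⟩
              · exact ⟨Or.inr h5.1, h5.2⟩
              · subst h5
                exact ⟨Or.inl hxX, fun h6 => hxY (hTY h6)⟩
          have key : ∀ s, (Rx G (X ∪ Y) X ∅ (insert x s) ∧ x ∉ s) ↔
              Rx G (X.erase x ∪ (Y \ T) ∪ {x}) (X.erase x) {x} s := by
            intro s
            rw [rx_link hxX, insert_empty_eq, rx_drop (U := X ∪ Y) (T := T)
              (singleton_nonempty x) hn' (by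
              intro t ht
              refine ⟨fun h5 => ?_, x, mem_singleton_self x, ?_⟩
              · rw [mem_singleton] at h5
                exact hxY (h5 ▸ hTY ht)
              · rw [hT] at ht
                exact (mem_filter.1 ht).2) (by
              intro t ht h5
              exact disjoint_left.1 hXY (mem_of_mem_erase h5) (hTY ht)), e]
          have d1 : Disjoint (X.erase x) ({x} : Finset V) :=
            disjoint_singleton_right.2 (notMem_erase x X)
          by_cases hYT : (Y \ T).Nonempty
          · refine ack_congr (fun s => (key s).symm)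
              (ack_Rg μ p1 p2 _ (X.erase x) (Y \ T) {x} l le_rfl
                (disjoint_of_subset_left (erase_subset x X)
                  (disjoint_of_subset_right sdiff_subset hXY)) d1 ?_ (singleton_nonempty x) hn'
                hYT h2 ?_ ?_)
            · exact disjoint_singleton_right.2 fun h5 => hxY (mem_sdiff.1 h5).1
            · intro y' hy' v hv
              rw [mem_singleton] at hv
              subst hv
              intro h6
              exact (mem_sdiff.1 hy').2 (hT ▸ mem_filter.2 ⟨(mem_sdiff.1 hy').1, h6⟩)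
            · have b3 : (Y \ T).card + T.card = Y.card := card_sdiff_add_card_eq_card hTY
              rw [← hT] at a2
              omega
          · have h5 : Y \ T = ∅ := not_nonempty_iff_eq_empty.1 hYT
            refine ack_of_ac l (ac_congr (fun s => (key s).symm) ?_)
            refine ac_congr (K := Rr G (X.erase x ∪ {x}) {x}) (fun s => ?_)
              (ac_R _ _ _ le_rfl subset_union_right (singleton_nonempty x) hn')
            have h6 : (X.erase x ∪ {x}) \ {x} = X.erase x := by
              rw [union_sdiff_right]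
              exact sdiff_eq_self_of_disjoint d1
            unfold Rr Rx
            rw [h6, h5, union_empty]
      · -- `X = {x}`
        have h3 : X.erase x = ∅ := not_nonempty_iff_eq_empty.1 h2
        have h4 : nb G x Y < Y.card := by
          rw [h3] at a4
          simp only [card_empty] at a4
          omega
        obtain ⟨y', hy', hxy'⟩ := nb_lt h4
        have h5 : X = {x} := by
          rw [← insert_erase hxX, h3]
          rfl
        refine ack_of_ac k (ac_congr (K := fun s => s ⊆ X) (fun s => ?_) (ac_simplex hX))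
        refine ⟨fun h6 => ⟨h6, {x} ∪ {y'}, ?_, ?_, {x}, {y'},
          singleton_nonempty x, singleton_nonempty y', ?_, rfl, ?_⟩, fun h6 => h6.1⟩
        · rw [union_empty, ← h5]
          exact h6.trans subset_union_left
        · exact union_subset_union (singleton_subset_iff.2 hxX) (singleton_subset_iff.2 hy')
        · exact disjoint_singleton.2 fun h7 => hxY (h7 ▸ hy')
        · intro u hu v hv
          rw [mem_singleton] at hu hv
          subst hu
          subst hv
          exact hxy'
    · push Not at hx
      refine ack_of_ac k (ac_congr (K := fun s => s ⊆ X) (fun s => ?_) (ac_simplex hX))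
      refine ⟨fun h6 => ⟨h6, X ∪ Y, ?_, Subset.rfl, X, Y, hX, hY, hXY, rfl, hx⟩, fun h6 => h6.1⟩
      rw [union_empty]
      exact h6.trans subset_union_left

/-- THEOREM D', graph part: cycles on sets with at most `k` elements bound in the complex of the sets which lie in a
disconnected set, if `k + |G| + 4 ≤ 2 |V|`. -/
theorem ack_g (G : Finset (Sym2 V)) (μ : Finset V → Finset V → Finset V → ℕ)
    (ν : Finset V → Finset V → ℕ) (p1 : P1 G μ) (p2 : P2 G μ) (q1 : Q1 G ν) (q2 : Q2 G μ ν) (m : ℕ)
    (q3 : ∀ x : V, ν (univ.erase x) {x} ≤ m) (h2 : 2 ≤ Fintype.card V) {k : ℕ}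
    (hk : k + m + 4 ≤ 2 * Fintype.card V) :
    ACk k fun M : Finset V => ∃ W, M ⊆ W ∧ Disc W G := by
  have hne : 0 < Fintype.card V := by omega
  obtain ⟨x⟩ := Fintype.card_pos_iff.1 hne
  have hc : (univ.erase x : Finset V).card + 1 = Fintype.card V := by
    rw [card_erase_add_one (mem_univ x), card_univ]
  have hX : (univ.erase x : Finset V).Nonempty := card_pos.1 (by omega)
  have hG := q3 x
  refine ack_vertex (fun s t hst ⟨W, h3, h4⟩ => ⟨W, hst.trans h3, h4⟩) x ?_ ?_
  · refine ack_congr (K := Rx G (univ.erase x ∪ {x}) (univ.erase x) ∅) (fun s => ?_)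
      (ack_Ng μ ν p1 p2 q1 q2 _ (univ.erase x) {x} k le_rfl (disjoint_singleton_right.2 (notMem_erase x univ))
        (singleton_nonempty x) hX ?_)
    · unfold Rx
      rw [union_empty]
      constructor
      · rintro ⟨h3, W, h4, -, h5⟩
        exact ⟨⟨W, h4, h5⟩, fun h6 => notMem_erase x univ (h3 h6)⟩
      · rintro ⟨⟨W, h4, h5⟩, h6⟩
        refine ⟨subset_erase.2 ⟨subset_univ s, h6⟩, W, h4, fun v _ => ?_, h5⟩
        by_cases h7 : v = x
        · exact mem_union_right _ (mem_singleton.2 h7)
        · exact mem_union_left _ (mem_erase.2 ⟨h7, mem_univ v⟩)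
    · rw [card_singleton]
      omega
  · intro l _
    refine ack_of_ac l (ac_congr (K := Rr G univ {x}) (fun s => ?_)
      (ac_R _ univ {x} le_rfl (subset_univ _) (singleton_nonempty x) (not_disc_singleton x)))
    constructor
    · rintro ⟨h1, W, h2, -, h4⟩
      refine ⟨⟨W, ?_, h4⟩, fun hs => ?_⟩
      · intro v hv
        apply h2
        simp only [mem_union, mem_insert, mem_singleton] at hv ⊢
        tauto
      · exact (mem_sdiff.1 (h1 hs)).2 (mem_singleton_self x)
    · rintro ⟨⟨W, h1, h2⟩, hzs⟩
      refine ⟨fun v hv => mem_sdiff.2 ⟨mem_univ v, fun h3 => ?_⟩, W, ?_, subset_univ _, h2⟩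
      · rw [mem_singleton] at h3
        exact hzs (h3 ▸ hv)
      · intro v hv
        apply h1
        simp only [mem_union, mem_insert, mem_singleton] at hv ⊢
        tauto



/-- The cost of a member with `a` vertices in `X`, `b` in `Y` and none in `Z`. -/
def cN (a b : ℕ) : ℕ := if a = 0 then 0 else if b = 0 then 2 * a - 3 else 2 * a + b - 2

/-- The cost of a member. -/
def cR (A X Y Z : Finset V) : ℕ :=
  if Disjoint A Z then cN (A ∩ X).card (A ∩ Y).card else (A ∩ X).card - 1

/-- The measure on `N(X, Y)`. -/
def mN (F : Finset (Finset V)) (X Y : Finset V) : ℕ := ∑ A ∈ F, cN (A ∩ X).card (A ∩ Y).card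

/-- The measure on `R(X, Y, Z)`. -/
def mL (F : Finset (Finset V)) (X Y Z : Finset V) : ℕ :=
  (sZ (HG F) X Z).card + ∑ A ∈ F, cR A X Y Z

theorem mem_HG {F : Finset (Finset V)} {u v : V} :
    s(u, v) ∈ HG F ↔ u ≠ v ∧ ∃ A ∈ F, u ∈ A ∧ v ∈ A := by
  unfold HG LW
  simp only [mem_filter, mk_mem_sym2_iff, mem_univ, and_self, true_and, Sym2.mk_isDiag_iff]

theorem cN_mono {a b a' b' : ℕ} (h1 : a ≤ a') (h2 : b ≤ b') : cN a b ≤ cN a' b' := by
  unfold cN
  split_ifs <;> omega

theorem card_inter_erase {A X : Finset V} {x : V} (hx : x ∈ A) (hX : x ∈ X) :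
    (A ∩ X.erase x).card + 1 = (A ∩ X).card := by
  have e : A ∩ X.erase x = (A ∩ X).erase x := by
    ext v
    simp only [mem_inter, mem_erase]
    tauto
  rw [e, card_erase_add_one (mem_inter.2 ⟨hx, hX⟩)]

theorem inter_erase_notMem {A X : Finset V} {x : V} (hx : x ∉ A) : A ∩ X.erase x = A ∩ X := by
  ext v
  simp only [mem_inter, mem_erase]
  constructor
  · tauto
  · rintro ⟨h1, h2⟩
    exact ⟨h1, fun h3 => hx (h3 ▸ h1), h2⟩

theorem p1 (F : Finset (Finset V)) : P1 (HG F) (mL F) := by
  intro X Y Z x hXY hXZ hYZ hyz hx hz h0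
  have hxs : x ∈ sZ (HG F) X Z := by
    obtain ⟨z, h1, h2⟩ := hz
    exact mem_filter.2 ⟨hx, z, h1, h2⟩
  have a2 := sZ_erase hxs
  have hle : ∀ A ∈ F, cR A (X.erase x) Y Z ≤ cR A X Y Z := by
    intro A _
    have h1 : (A ∩ X.erase x).card ≤ (A ∩ X).card :=
      card_le_card (inter_subset_inter Subset.rfl (erase_subset x X))
    unfold cR
    split_ifs
    · exact cN_mono h1 le_rfl
    · omega
  have hlt : ∃ A ∈ F, cR A (X.erase x) Y Z < cR A X Y Z := by
    have hw : ∃ w ∈ X.erase x ∪ Y, s(x, w) ∈ HG F := by
      by_contra hc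
      push Not at hc
      apply h0
      have h1 : nb (HG F) x (X.erase x) = 0 := by
        unfold nb
        rw [card_eq_zero, filter_eq_empty_iff]
        exact fun a ha => hc a (mem_union_left _ ha)
      have h2 : nb (HG F) x Y = 0 := by
        unfold nb
        rw [card_eq_zero, filter_eq_empty_iff]
        exact fun a ha => hc a (mem_union_right _ ha)
      omega
    obtain ⟨w, hw, hxw⟩ := hw
    obtain ⟨hne, A, hA, hxA, hwA⟩ := mem_HG.1 hxw
    refine ⟨A, hA, ?_⟩
    have h1 := card_inter_erase hxA hx
    have h2 : 1 ≤ (A ∩ X.erase x).card + (A ∩ Y).card := by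
      rcases mem_union.1 hw with h3 | h3
      · have : 0 < (A ∩ X.erase x).card := card_pos.2 ⟨w, mem_inter.2 ⟨hwA, h3⟩⟩
        omega
      · have : 0 < (A ∩ Y).card := card_pos.2 ⟨w, mem_inter.2 ⟨hwA, h3⟩⟩
        omega
    unfold cR
    split_ifs with h3
    · unfold cN
      split_ifs <;> omega
    · have h4 : (A ∩ Y).card = 0 := by
        rw [card_eq_zero]
        by_contra hc
        obtain ⟨y, hy⟩ := nonempty_iff_ne_empty.2 hc
        rw [mem_inter] at hy
        obtain ⟨z, hzA, hzZ⟩ := not_disjoint_iff.1 h3
        exact hyz y hy.2 z hzZ (mem_HG.2 ⟨fun h5 => disjoint_left.1 hYZ hy.2 (h5 ▸ hzZ),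
          A, hA, hzA, hy.1⟩)
      omega
  have h3 := sum_lt_sum hle hlt
  unfold mL
  omega

theorem sum_ite_filter {F : Finset (Finset V)} {p : Finset V → Prop} [DecidablePred p]
    (f : Finset V → ℕ) : ∑ A ∈ F, (if p A then f A else 0) = ∑ A ∈ F.filter p, f A :=
  (sum_filter p f).symm

theorem p2 (F : Finset (Finset V)) : P2 (HG F) (mL F) := by
  intro X Y Z x hXY hXZ hYZ hyz hx hz
  obtain ⟨T, hT⟩ : ∃ T, T = Y.filter fun a => s(x, a) ∈ HG F := ⟨_, rfl⟩
  have hTY : T ⊆ Y := hT ▸ filter_subset _ _
  rw [← hT]
  have hTc : nb (HG F) x Y = T.card := by rw [hT]; rfl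
  have hxs : x ∈ sZ (HG F) X Z := by
    obtain ⟨z, h1, h2⟩ := hz
    exact mem_filter.2 ⟨hx, z, h1, h2⟩
  have hxs' : ((sZ (HG F) X Z).erase x).card + 1 = (sZ (HG F) X Z).card :=
    card_erase_add_one hxs
  obtain ⟨Q, hQ⟩ : ∃ Q, Q = F.filter fun A => x ∈ A ∧ Disjoint A Z := ⟨_, rfl⟩
  have h1 : sZ (HG F) (X.erase x) (insert x Z) ⊆
      (sZ (HG F) X Z).erase x ∪ Q.biUnion fun A => A ∩ X.erase x := by
    intro v hv
    simp only [sZ, mem_filter, mem_erase] at hv
    obtain ⟨⟨hvx, hvX⟩, z, hz1, hz2⟩ := hv
    by_cases h2 : v ∈ sZ (HG F) X Z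
    · exact mem_union_left _ (mem_erase.2 ⟨hvx, h2⟩)
    · rcases mem_insert.1 hz1 with h3 | h3
      · subst h3
        obtain ⟨-, A, hA, hzA, hvA⟩ := mem_HG.1 hz2
        refine mem_union_right _ (mem_biUnion.2 ⟨A, ?_, mem_inter.2 ⟨hvA, mem_erase.2 ⟨hvx, hvX⟩⟩⟩)
        rw [hQ, mem_filter]
        refine ⟨hA, hzA, disjoint_left.2 fun w hw hwZ => h2 ?_⟩
        exact mem_filter.2 ⟨hvX, w, hwZ, mem_HG.2
          ⟨fun h5 => disjoint_left.1 hXZ hvX (h5 ▸ hwZ), A, hA, hw, hvA⟩⟩
      · exact absurd (mem_filter.2 ⟨hvX, z, h3, hz2⟩) h2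
  have h2 : T ⊆ Q.biUnion fun A => A ∩ Y := by
    intro y hy
    rw [hT, mem_filter] at hy
    obtain ⟨-, A, hA, hxA, hyA⟩ := mem_HG.1 hy.2
    refine mem_biUnion.2 ⟨A, ?_, mem_inter.2 ⟨hyA, hy.1⟩⟩
    rw [hQ, mem_filter]
    refine ⟨hA, hxA, disjoint_left.2 fun w hw hwZ => ?_⟩
    exact hyz y hy.1 w hwZ (mem_HG.2 ⟨fun h5 => disjoint_left.1 hYZ hy.1 (h5 ▸ hwZ),
      A, hA, hw, hyA⟩)
  have h3 := ((card_le_card h1).trans (card_union_le _ _)).trans
    (Nat.add_le_add_left card_biUnion_le _)
  have h4 := (card_le_card h2).trans card_biUnion_le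
  have h5 : ∑ A ∈ F, cR A (X.erase x) (Y \ T) (insert x Z) +
      (∑ A ∈ Q, (A ∩ X.erase x).card + ∑ A ∈ Q, (A ∩ Y).card) ≤ ∑ A ∈ F, cR A X Y Z := by
    rw [← sum_add_distrib, hQ, sum_filter, ← sum_add_distrib]
    refine sum_le_sum fun A hA => ?_
    have g1 : (A ∩ X.erase x).card ≤ (A ∩ X).card :=
      card_le_card (inter_subset_inter Subset.rfl (erase_subset x X))
    have g2 : (A ∩ (Y \ T)).card ≤ (A ∩ Y).card :=
      card_le_card (inter_subset_inter Subset.rfl sdiff_subset)
    by_cases hxA : x ∈ A
    · have g3 := card_inter_erase hxA hx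
      have g4 : ¬ Disjoint A (insert x Z) := fun h =>
        disjoint_left.1 h hxA (mem_insert_self x Z)
      unfold cR
      rw [if_neg g4]
      by_cases g5 : Disjoint A Z
      · rw [if_pos g5, if_pos ⟨hxA, g5⟩]
        unfold cN
        split_ifs <;> omega
      · rw [if_neg g5, if_neg fun h => g5 h.2]
        omega
    · rw [if_neg fun h => hxA h.1]
      have g4 : Disjoint A (insert x Z) ↔ Disjoint A Z := by
        rw [disjoint_insert_right]
        exact ⟨fun h => h.2, fun h => ⟨hxA, h⟩⟩
      unfold cR
      by_cases g5 : Disjoint A Z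
      · rw [if_pos (g4.2 g5), if_pos g5]
        exact cN_mono g1 g2
      · rw [if_neg (fun h => g5 (g4.1 h)), if_neg g5]
        omega
  unfold mL
  omega

theorem q1 (F : Finset (Finset V)) : Q1 (HG F) (mN F) := by
  intro X Y x hXY hx hy
  have hxY : x ∉ Y := fun h => disjoint_left.1 hXY hx h
  have key : ∀ A : Finset V, x ∈ A → (A ∩ insert x Y).card = (A ∩ Y).card + 1 := by
    intro A hA
    rw [inter_insert_of_mem hA, card_insert_of_notMem fun h => hxY (mem_inter.1 h).2]
  unfold mN
  refine Nat.succ_le_of_lt (sum_lt_sum (fun A _ => ?_) ?_)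
  · by_cases hxA : x ∈ A
    · rw [key A hxA]
      have g3 := card_inter_erase hxA hx
      unfold cN
      split_ifs <;> omega
    · rw [inter_erase_notMem hxA, inter_insert_of_notMem hxA]
  · obtain ⟨y, hyY, hxy⟩ := hy
    obtain ⟨-, A, hA, hxA, hyA⟩ := mem_HG.1 hxy
    refine ⟨A, hA, ?_⟩
    rw [key A hxA]
    have g3 := card_inter_erase hxA hx
    have g4 : 0 < (A ∩ Y).card := card_pos.2 ⟨y, mem_inter.2 ⟨hyA, hyY⟩⟩
    unfold cN
    split_ifs <;> omega

theorem q2 (F : Finset (Finset V)) : Q2 (HG F) (mL F) (mN F) := by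
  intro X Y x hXY hx
  obtain ⟨T, hT⟩ : ∃ T, T = Y.filter fun a => s(x, a) ∈ HG F := ⟨_, rfl⟩
  have hTY : T ⊆ Y := hT ▸ filter_subset _ _
  rw [← hT]
  have hTc : nb (HG F) x Y = T.card := by rw [hT]; rfl
  obtain ⟨Q, hQ⟩ : ∃ Q, Q = F.filter fun A => x ∈ A := ⟨_, rfl⟩
  have h1 : sZ (HG F) (X.erase x) {x} ⊆ Q.biUnion fun A => A ∩ X.erase x := by
    intro v hv
    simp only [sZ, mem_filter, mem_singleton, exists_eq_left] at hv
    obtain ⟨hvX, hz2⟩ := hv
    obtain ⟨-, A, hA, hzA, hvA⟩ := mem_HG.1 hz2
    refine mem_biUnion.2 ⟨A, ?_, mem_inter.2 ⟨hvA, hvX⟩⟩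
    rw [hQ, mem_filter]
    exact ⟨hA, hzA⟩
  have h2 : T ⊆ Q.biUnion fun A => A ∩ Y := by
    intro y hy
    rw [hT, mem_filter] at hy
    obtain ⟨-, A, hA, hxA, hyA⟩ := mem_HG.1 hy.2
    refine mem_biUnion.2 ⟨A, ?_, mem_inter.2 ⟨hyA, hy.1⟩⟩
    rw [hQ, mem_filter]
    exact ⟨hA, hxA⟩
  have h3 := (card_le_card h1).trans card_biUnion_le
  have h4 := (card_le_card h2).trans card_biUnion_le
  have h5 : ∑ A ∈ F, cR A (X.erase x) (Y \ T) {x} +
      (∑ A ∈ Q, (A ∩ X.erase x).card + ∑ A ∈ Q, (A ∩ Y).card) ≤
      ∑ A ∈ F, cN (A ∩ X).card (A ∩ Y).card := by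
    rw [← sum_add_distrib, hQ, sum_filter, ← sum_add_distrib]
    refine sum_le_sum fun A hA => ?_
    have g1 : (A ∩ X.erase x).card ≤ (A ∩ X).card :=
      card_le_card (inter_subset_inter Subset.rfl (erase_subset x X))
    have g2 : (A ∩ (Y \ T)).card ≤ (A ∩ Y).card :=
      card_le_card (inter_subset_inter Subset.rfl sdiff_subset)
    by_cases hxA : x ∈ A
    · have g3 := card_inter_erase hxA hx
      have g4 : ¬ Disjoint A ({x} : Finset V) := fun h =>
        disjoint_left.1 h hxA (mem_singleton_self x)
      unfold cR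
      rw [if_neg g4, if_pos hxA]
      unfold cN
      split_ifs <;> omega
    · rw [if_neg hxA]
      have g4 : Disjoint A ({x} : Finset V) := disjoint_singleton_right.2 hxA
      unfold cR
      rw [if_pos g4]
      exact cN_mono g1 g2
  unfold mL mN
  omega

theorem q3 (F : Finset (Finset V)) (x : V) : mN F (univ.erase x) {x} ≤ cost F := by
  refine sum_le_sum fun A _ => ?_
  by_cases hxA : x ∈ A
  · have g3 := card_inter_erase hxA (mem_univ x)
    have g4 : (A ∩ {x}).card = 1 := by
      rw [inter_singleton_of_mem hxA, card_singleton]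
    rw [inter_univ] at g3
    rw [g4]
    unfold cN
    split_ifs <;> omega
  · rw [inter_erase_notMem hxA, inter_univ, inter_singleton_of_notMem hxA, card_empty]
    unfold cN
    split_ifs <;> omega

/-- Lemma D for unions of cliques. -/
theorem ack_hyp (F : Finset (Finset V)) (h2 : 2 ≤ Fintype.card V) {k : ℕ}
    (hk : k + cost F + 4 ≤ 2 * Fintype.card V) :
    ACk k fun M : Finset V => ∃ W, M ⊆ W ∧ Disc W (HG F) :=
  ack_g (HG F) (mL F) (mN F) (p1 F) (p2 F) (q1 F) (q2 F) (cost F) (q3 F) h2 hk

end H24L
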